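import Mathlib

namespace Pool.Agent.Results.MP_e1ef61_al.NotQuasivariety

open Function

/-- `x 𝓛* y`; multipliers range over `S` with an identity adjoined. -/
def LStar {S : Type} [Semigroup S] (x y : S) : Prop :=
  ∀ a b : WithOne S, (x : WithOne S) * a = x * b ↔ (y : WithOne S) * a = y * b

/-- `x 𝓡* y`. -/
def RStar {S : Type} [Semigroup S] (x y : S) : Prop :=
  ∀ a b : WithOne S, a * (x : WithOne S) = b * x ↔ a * (y : WithOne S) = b * y

/-- `(S, ·, l, r)` is an amiable semigroup with its two unary operations: `l x` is the unique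
idempotent `𝓛*`-related to `x`, and `r x` the unique idempotent `𝓡*`-related to `x`. -/
def Amiable {S : Type} [Semigroup S] (l r : S → S) : Prop :=
  ∀ x e : S, ((e * e = e ∧ LStar x e) ↔ e = l x) ∧ ((e * e = e ∧ RStar x e) ↔ e = r x)

/-- The semigroup `F = ⟨a, b ∣ a² = a, b² = b⟩`. -/
abbrev F : Type :=
  (conGen fun u v : FreeSemigroup Bool => ∃ c, u = .of c * .of c ∧ v = .of c).Quotient

/-- No subsemigroup of `S` is isomorphic to `F`. -/
def AvoidsF (S : Type) [Semigroup S] : Prop := ∀ T : Subsemigroup S, IsEmpty (F ≃* T)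

/-- Terms of type `⟨2,1,1⟩`. -/
inductive Tm : Type
  | var : ℕ → Tm
  | mul : Tm → Tm → Tm
  | l : Tm → Tm
  | r : Tm → Tm

/-- Value of a term. -/
def Tm.eval {S : Type} [Mul S] (l r : S → S) (v : ℕ → S) : Tm → S
  | .var n => v n
  | .mul s t => s.eval l r v * t.eval l r v
  | .l s => l (s.eval l r v)
  | .r s => r (s.eval l r v)

/-- The quasi-identity with premises `q.1` and conclusion `q.2` holds. -/
def Sat {S : Type} [Mul S] (l r : S → S) (q : List (Tm × Tm) × Tm × Tm) : Prop :=
  ∀ v : ℕ → S, (∀ p ∈ q.1, p.1.eval l r v = p.2.eval l r v) →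
    q.2.1.eval l r v = q.2.2.eval l r v

/-- The Catalan monoid: monotone, order-decreasing self-maps of `Fin (n + 1)`. -/
def C (n : ℕ) : Submonoid (Function.End (Fin (n + 1))) where
  carrier := {f | Monotone f ∧ ∀ i, f i ≤ i}
  mul_mem' hf hg := ⟨hf.1.comp hg.1, fun i => (hf.2 _).trans (hg.2 i)⟩
  one_mem' := ⟨monotone_id, fun _ => le_rfl⟩

variable {n : ℕ}

lemma ext' {x y : C n} (h : ∀ i, x.1 i = y.1 i) : x = y := Subtype.ext (funext h)

lemma mul_ap (x y : C n) (i) : (x * y).1 i = x.1 (y.1 i) := rfl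

/-- The least element of the fibre. -/
noncomputable def lC (x : C n) : C n :=
  ⟨fun i => sInf {j | x.1 i ≤ x.1 j}, fun _ _ h => sInf_le_sInf fun _ hk => (x.2.1 h).trans hk,
    fun _ => sInf_le (by simp)⟩

/-- The largest element of the image below. -/
noncomputable def rC (x : C n) : C n :=
  ⟨fun i => sSup {j | j ≤ i ∧ j ∈ Set.range x.1},
    fun _ _ h => sSup_le_sSup fun _ hk => ⟨hk.1.trans h, hk.2⟩, fun _ => sSup_le fun _ h => h.1⟩

lemma x_l (x : C n) (i) : x.1 ((lC x).1 i) = x.1 i :=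
  le_antisymm (x.2.1 ((lC x).2.2 i)) (by
    have := Set.Nonempty.csInf_mem (s := {j | x.1 i ≤ x.1 j}) ⟨i, by simp⟩ (Set.toFinite _)
    rw [Set.mem_ofPred_eq] at this
    exact this)

lemma l_eq (x : C n) (i j) : (lC x).1 i = (lC x).1 j ↔ x.1 i = x.1 j :=
  ⟨fun h => by rw [← x_l x i, h, x_l], fun h => by simp only [lC, h]⟩

lemma r_mem (x : C n) (i) : (rC x).1 i ∈ Set.range x.1 :=
  (Set.Nonempty.csSup_mem (s := {j | j ≤ i ∧ j ∈ Set.range x.1})
    ⟨x.1 0, (x.2.2 0).trans (Fin.zero_le _), 0, rfl⟩ (Set.toFinite _)).2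

lemma r_x (x : C n) (i) : (rC x).1 (x.1 i) = x.1 i :=
  le_antisymm ((rC x).2.2 _) (le_sSup ⟨le_refl _, i, rfl⟩)

lemma lstar_iff {M : Type} [Monoid M] (x y : M) :
    LStar x y ↔ ∀ a b : M, x * a = x * b ↔ y * a = y * b := by
  constructor
  · intro h a b
    simpa only [← WithOne.coe_mul, WithOne.coe_inj] using h a b
  · intro h a b
    induction a using WithOne.recOneCoe <;> induction b using WithOne.recOneCoe
    · simp
    · simpa only [mul_one, ← WithOne.coe_mul, WithOne.coe_inj] using h 1 _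
    · simpa only [mul_one, ← WithOne.coe_mul, WithOne.coe_inj] using h _ 1
    · simpa only [← WithOne.coe_mul, WithOne.coe_inj] using h _ _

lemma rstar_iff {M : Type} [Monoid M] (x y : M) :
    RStar x y ↔ ∀ a b : M, a * x = b * x ↔ a * y = b * y := by
  constructor
  · intro h a b
    simpa only [← WithOne.coe_mul, WithOne.coe_inj] using h a b
  · intro h a b
    induction a using WithOne.recOneCoe <;> induction b using WithOne.recOneCoe
    · simp
    · simpa only [one_mul, ← WithOne.coe_mul, WithOne.coe_inj] using h 1 _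
    · simpa only [one_mul, ← WithOne.coe_mul, WithOne.coe_inj] using h _ 1
    · simpa only [← WithOne.coe_mul, WithOne.coe_inj] using h _ _

lemma ext_iff' (x y : C n) : x = y ↔ ∀ i, x.1 i = y.1 i := ⟨fun h _ => h ▸ rfl, ext'⟩

lemma amiable : Amiable (lC (n := n)) rC := by
  intro x e
  rw [lstar_iff, rstar_iff]
  have hl : x * lC x = x * 1 := ext' fun i => x_l x i
  have hr : rC x * x = 1 * x := ext' fun i => r_x x i
  refine ⟨⟨fun ⟨h1, h2⟩ => ext' fun i => le_antisymm ?_ ?_, ?_⟩,
    ⟨fun ⟨h1, h2⟩ => ext' fun i => le_antisymm ?_ ?_, ?_⟩⟩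
  · have := (ext_iff' _ _).1 ((h2 _ _).1 hl) i
    exact this.symm.trans_le (e.2.2 _)
  · have := (ext_iff' _ _).1 ((h2 e 1).2 (by rw [h1, mul_one])) i
    exact ((l_eq x _ _).2 this).symm.trans_le ((lC x).2.2 _)
  · rintro rfl
    refine ⟨ext' fun i => (l_eq x _ _).2 (x_l x i), fun a b => ?_⟩
    simp only [ext_iff', mul_ap, l_eq]
  · have : (rC x).1 (e.1 i) = e.1 i := (ext_iff' _ _).1 ((h2 _ _).1 hr) i
    exact this.symm.trans_le ((rC x).2.1 (e.2.2 _))
  · have h3 := (ext_iff' _ _).1 ((h2 e 1).2 (by rw [h1, one_mul]))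
    obtain ⟨j, hj⟩ := r_mem x i
    have h4 : e.1 (x.1 j) = x.1 j := h3 j
    rw [← hj, ← h4]
    exact e.2.1 (hj ▸ (rC x).2.2 i)
  · rintro rfl
    refine ⟨ext' fun i => ?_, fun a b => ?_⟩
    · obtain ⟨j, hj⟩ := r_mem x i
      rw [mul_ap, ← hj, r_x]
    · simp only [ext_iff', mul_ap]
      refine ⟨fun h i => ?_, fun h i => by simpa only [r_x] using h (x.1 i)⟩
      obtain ⟨j, hj⟩ := r_mem x i
      rw [← hj, h]

/-- The idempotent that lowers odd (`c = true`) or positive even (`c = false`) points by one. -/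
def g (c : Bool) (i : ℕ) : ℕ := if i % 2 = c.toNat then i - 1 else i

lemma g_le (c : Bool) (i : ℕ) : g c i ≤ i := by unfold g; split_ifs <;> omega

/-- The two generators inside the product of the Catalan monoids. -/
def gen (c : Bool) (n : ℕ) : C n :=
  ⟨fun i => ⟨g c i, (g_le c i).trans_lt i.2⟩, fun i j (h : i.val ≤ j.val) => by
    show g c i ≤ g c j
    unfold g; split_ifs <;> omega, fun i => g_le c i⟩

lemma gen_sq (c : Bool) : gen c * gen c = gen c := by
  funext n
  refine ext' fun i => Fin.ext ?_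
  show g c (g c i) = g c i
  unfold g; cases c <;> split_ifs <;> simp_all <;> omega

/-- The alternating word with first letter `c` and `k + 1` letters. -/
def alt {S : Type} [Mul S] (a : Bool → S) : ℕ → Bool → S
  | 0, c => a c
  | k + 1, c => a c * alt a k (!c)

/-- The homomorphism from `F` to the product. -/
def hom : F →ₙ* (∀ n, C n) where
  toFun x := Con.liftOn x (FreeSemigroup.lift gen) fun _ _ h =>
    (Con.conGen_le (c := Con.ker (FreeSemigroup.lift gen))).2
      (by rintro _ _ ⟨c, rfl, rfl⟩; simp [Con.ker_rel, gen_sq]) h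
  map_mul' x y := Con.induction_on₂ x y fun u v => map_mul (FreeSemigroup.lift gen) u v

/-- The generators of `F`. -/
def a (c : Bool) : F := (FreeSemigroup.of c : FreeSemigroup Bool)

lemma a_sq (c : Bool) : a c * a c = a c := (Con.eq _).2 (ConGen.Rel.of _ _ ⟨c, rfl, rfl⟩)

lemma a_alt (c : Bool) (k : ℕ) (d : Bool) : ∃ k', a c * alt a k d = alt a k' c := by
  by_cases h : d = c
  · subst h
    refine ⟨k, ?_⟩
    cases k
    · exact a_sq d
    · simp only [alt, ← mul_assoc, a_sq]
  · exact ⟨k + 1, by rw [alt, Bool.eq_not_iff.2 h]⟩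

lemma alt_mul (k : ℕ) : ∀ (c : Bool) (j : ℕ) (d : Bool), ∃ k', alt a k c * alt a j d = alt a k' c := by
  induction k with
  | zero => exact a_alt
  | succ k ih =>
    intro c j d
    obtain ⟨k', h⟩ := ih (!c) j d
    exact ⟨k' + 1, by rw [alt, alt, mul_assoc, h]⟩

lemma normal (x : F) : ∃ k c, x = alt a k c := by
  refine Con.induction_on x fun u => ?_
  induction u using FreeSemigroup.recOnMul with
  | ih1 c => exact ⟨0, c, rfl⟩
  | ih2 c u _ h =>
    obtain ⟨k, d, h⟩ := h
    obtain ⟨k', h'⟩ := a_alt c k d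
    exact ⟨k', c, by rw [← h', ← h]; rfl⟩

lemma hom_alt (k : ℕ) : ∀ c, hom (alt a k c) = alt gen k c := by
  induction k with
  | zero => exact fun c => rfl
  | succ k ih => intro c; rw [alt, map_mul, ih]; rfl

lemma alt_val (n k : ℕ) : ∀ (c : Bool) (i : Fin (n + 1)), k + 1 ≤ i.val →
    ((alt gen k c n).1 i).val = if (i.val + k) % 2 = c.toNat then i.val - (k + 1) else i - k := by
  induction k with
  | zero => intro c i _; rfl
  | succ k ih =>
    intro c i hi
    show g c ((alt gen k (!c) n).1 i).val = _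
    rw [ih _ _ (by omega)]
    unfold g
    cases c <;> simp only [Bool.not_false, Bool.not_true, Bool.toNat_false, Bool.toNat_true] <;>
      split_ifs <;> omega

lemma hom_inj : Injective hom := by
  intro x y h
  obtain ⟨k, c, rfl⟩ := normal x
  obtain ⟨j, d, rfl⟩ := normal y
  rw [hom_alt, hom_alt] at h
  have h1 := alt_val (k + j + 2) k c ⟨k + j + 1, by omega⟩ (by simp)
  have h2 := alt_val (k + j + 2) k c ⟨k + j + 2, by omega⟩ (by simp; omega)
  rw [h, alt_val _ _ _ _ (by simp)] at h1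
  rw [h, alt_val _ _ _ _ (by simp; omega)] at h2
  have : k = j ∧ c.toNat = d.toNat := by
    have := c.toNat_le; have := d.toNat_le
    simp only at h1 h2
    split_ifs at h1 h2 <;> omega
  obtain ⟨rfl, h3⟩ := this
  rw [show c = d by revert h3; cases c <;> cases d <;> simp]

lemma eval_pi (v : ℕ → ∀ n, C n) (t : Tm) (n : ℕ) :
    t.eval (fun x n => lC (x n)) (fun x n => rC (x n)) v n = t.eval lC rC fun k => v k n := by
  induction t with
  | var k => rfl
  | mul s t hs ht => simp only [Tm.eval, Pi.mul_apply, hs, ht]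
  | l s hs => simp only [Tm.eval, hs]
  | r s hs => simp only [Tm.eval, hs]

theorem result : ¬ ∃ Q : Set (List (Tm × Tm) × Tm × Tm),
    ∀ (S : Type) [Semigroup S] (l r : S → S),
      (Amiable l r ∧ AvoidsF S) ↔ ∀ q ∈ Q, Sat l r q := by
  rintro ⟨Q, hQ⟩
  have hinf : Infinite F := by
    refine Infinite.of_injective (fun k => alt a k true) fun k j h => ?_
    have h := congrArg hom h
    simp only [hom_alt] at h
    have h1 := alt_val (k + j + 2) k true ⟨k + j + 1, by omega⟩ (by simp)
    have h2 := alt_val (k + j + 2) k true ⟨k + j + 2, by omega⟩ (by simp; omega)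
    rw [h, alt_val _ _ _ _ (by simp)] at h1
    rw [h, alt_val _ _ _ _ (by simp; omega)] at h2
    simp only at h1 h2
    split_ifs at h1 h2 <;> omega
  have hC : ∀ n, ∀ q ∈ Q, Sat (lC (n := n)) rC q := fun n => (hQ _ _ _).1 ⟨amiable, fun T =>
    ⟨fun e => by
      have : Finite (Function.End (Fin (n + 1))) := Pi.finite
      have := Finite.of_equiv _ e.toEquiv.symm
      exact not_finite F⟩⟩
  have := ((hQ (∀ n, C n) (fun x n => lC (x n)) (fun x n => rC (x n))).2 fun q hq v hv => ?_).2
  · exact (this hom.srange).false (MulEquiv.ofBijective hom.srangeRestrict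
      ⟨fun x y h => hom_inj (congrArg Subtype.val h), hom.srangeRestrict_surjective⟩)
  · funext n
    rw [eval_pi, eval_pi]
    exact hC n q hq _ fun p hp => by rw [← eval_pi, ← eval_pi, hv p hp]

end Pool.Agent.Results.MP_e1ef61_al.NotQuasivariety
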